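import Pool.Agent.H65.AD.TargetsB

/-!
# The local elements
-/

set_option autoImplicit false

open MeasureTheory Set Filter
open scoped Real

namespace Pool.Agent.H50.ADM

open Pool.Agent.H31.CN Pool.Agent.H95.AD Pool.Agent.H50.CN Pool.Agent.H65.AD

theorem gel00 (p : ℕ) : gel (ec 0 0) 0 p = 1 := by
  unfold gel
  simp [Finset.sum_range_succ, ec, E_zero]

theorem gel01 (p : ℕ) : gel (ec 0 1) 1 p = al p := by
  unfold gel al
  simp [Finset.sum_range_succ, ec, smul_add]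
  rw [add_comm]
  congr 2
  congr 1
  ring

theorem gel02 (p : ℕ) : gel (ec 0 2) 2 p = eo p + al p ^ 2 := by
  have h1 : al p ^ 2 = (1 / (p : ℝ) ^ 2) • E (2 * Real.log p) 0 +
      (2 / (p : ℝ) ^ 2) • E (Real.log p) (Real.log p) +
      (1 / (p : ℝ) ^ 2) • E 0 (2 * Real.log p) := by
    have h2 : al p = (1 / (p : ℝ)) • E (Real.log p) 0 + (1 / (p : ℝ)) • E 0 (Real.log p) := by
      unfold al
      rw [smul_add]
    rw [h2, sq, add_mul, mul_add, mul_add, smul_mul_smul_comm, smul_mul_smul_comm,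
      smul_mul_smul_comm, smul_mul_smul_comm, E_mul, E_mul, E_mul, E_mul]
    have h3 : (2 / (p : ℝ) ^ 2) = 1 / (p : ℝ) * (1 / (p : ℝ)) + 1 / (p : ℝ) * (1 / (p : ℝ)) := by
      ring
    have h4 : (1 / (p : ℝ) ^ 2) = 1 / (p : ℝ) * (1 / (p : ℝ)) := by ring
    rw [h3, h4, add_smul]
    have e1 : Real.log (p : ℝ) + Real.log p = 2 * Real.log p := by ring
    rw [e1]
    simp only [add_zero, zero_add]
    abel
  rw [h1]
  unfold gel eo
  rw [← E_zero]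
  simp [Finset.sum_range_succ, ec]
  have e2 : (2 * 2 - 2 : ℝ) * Real.log p = 2 * Real.log p := by ring
  have e3 : (-1 : ℝ) / (p : ℝ) ^ 3 = -((p : ℝ) ^ 3)⁻¹ := by ring
  rw [e2, e3, neg_smul]
  abel

theorem BD_gel (q : ℕ → ℕ → ℝ) (j p : ℕ) (hp : p.Prime)
    (hq : ∀ i k : ℕ, i < 3 → k < 3 → q i k ≠ 0 → |(i : ℝ) + 2 * k - j| ≤ 2) :
    BD (∑ i ∈ Finset.range 3, ∑ k ∈ Finset.range 3, |q i k / (p : ℝ) ^ (i + k)|)
      (2 * Real.log p) (gel q j p) := by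
  have h1 : (1 : ℝ) ≤ p := by exact_mod_cast hp.one_lt.le
  have hl : 0 ≤ Real.log p := Real.log_nonneg h1
  unfold gel
  refine BD_sum _ fun i hi => BD_sum _ fun k hk => ?_
  have hi3 := Finset.mem_range.1 hi
  have hk3 := Finset.mem_range.1 hk
  by_cases hz : q i k = 0
  · rw [hz, zero_div, zero_smul, abs_zero]
    exact BD_zero _
  · have h2 := hq i k hi3 hk3 hz
    have h3 : |(i : ℝ) * Real.log p| ≤ 2 * Real.log p := by
      rw [abs_mul, abs_of_nonneg hl, abs_of_nonneg (Nat.cast_nonneg i)]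
      refine mul_le_mul_of_nonneg_right ?_ hl
      have : i ≤ 2 := by omega
      exact_mod_cast this
    have h4 : |((i : ℝ) + 2 * k - j) * Real.log p| ≤ 2 * Real.log p := by
      rw [abs_mul, abs_of_nonneg hl]
      exact mul_le_mul_of_nonneg_right h2 hl
    have h5 := BD_smul (BD_E h3 h4) (q i k / (p : ℝ) ^ (i + k))
    rw [mul_one] at h5
    exact h5

theorem range3 {i : ℕ} (h : i < 3) : i = 0 ∨ i = 1 ∨ i = 2 := by omega

theorem ec_pos (c j : ℕ) (hc : c = 1 ∨ c = 2) (hj : j ≤ 2) (i k : ℕ) (hi : i < 3) (hk : k < 3)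
    (h : ec c j i k ≠ 0) : |(i : ℝ) + 2 * k - j| ≤ 2 := by
  rcases hc with rfl | rfl <;> rcases range3 (show j < 3 by omega) with rfl | rfl | rfl <;>
    rcases range3 hi with rfl | rfl | rfl <;> rcases range3 hk with rfl | rfl | rfl <;>
    first
    | (exfalso; apply h; simp [ec]; done)
    | (push_cast; norm_num)

theorem pf_GLE : T_GLE := by
  refine ⟨fun p _ => ⟨gel00 p, gel01 p, gel02 p⟩, fun c j p hc hj hp => ?_⟩
  have h1 : (1 : ℝ) ≤ p := by exact_mod_cast hp.one_lt.le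
  have h0 : (0 : ℝ) < p := by linarith
  refine BD_mono (BD_gel (ec c j) j p hp (ec_pos c j hc hj)) ?_ le_rfl
  have h2 : 1 / (p : ℝ) ^ 2 ≤ 1 / p := by
    refine one_div_le_one_div_of_le h0 ?_
    calc (p : ℝ) = (p : ℝ) ^ 1 := (pow_one _).symm
      _ ≤ (p : ℝ) ^ 2 := pow_le_pow_right₀ h1 (by norm_num)
  have h3 : 1 / (p : ℝ) ^ 3 ≤ 1 / p := by
    refine one_div_le_one_div_of_le h0 ?_
    calc (p : ℝ) = (p : ℝ) ^ 1 := (pow_one _).symm
      _ ≤ (p : ℝ) ^ 3 := pow_le_pow_right₀ h1 (by norm_num)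
  have h4 : (1 : ℝ) / p = (p : ℝ)⁻¹ := one_div _
  have h5 : (1 : ℝ) / (p : ℝ) ^ 2 = ((p : ℝ) ^ 2)⁻¹ := one_div _
  have h6 : (1 : ℝ) / (p : ℝ) ^ 3 = ((p : ℝ) ^ 3)⁻¹ := one_div _
  have h7 : (2 : ℝ) / (p : ℝ) ^ 2 = 2 * ((p : ℝ) ^ 2)⁻¹ := div_eq_mul_inv _ _
  have h8 : (2 : ℝ) / (p : ℝ) = 2 * (p : ℝ)⁻¹ := div_eq_mul_inv _ _
  have h9 : (6 : ℝ) / (p : ℝ) = 6 * (p : ℝ)⁻¹ := div_eq_mul_inv _ _
  have h10 : (6 : ℝ) / (p : ℝ) ^ 2 = 6 * ((p : ℝ) ^ 2)⁻¹ := div_eq_mul_inv _ _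
  have h11 : 0 ≤ ((p : ℝ) ^ 2)⁻¹ := by positivity
  rw [h4, h5] at h2
  rw [h4, h6] at h3
  rcases hc with rfl | rfl <;> rcases range3 (show j < 3 by omega) with rfl | rfl | rfl <;>
    simp [Finset.sum_range_succ, ec, abs_div]
  · rw [h8]
    linarith
  · rw [h7, h9]
    linarith
  · rw [h7]
    linarith
  · rw [h7, h10]
    linarith

end Pool.Agent.H50.ADM
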