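import Pool.Agent.H65.AD.TargetsB

/-!
# The error functional is negligible, uniformly
-/

set_option autoImplicit false

open MeasureTheory Set Filter
open scoped Real

namespace Pool.Agent.H50.ADM

open Pool.Agent.H31.CN Pool.Agent.H95.AD Pool.Agent.H50.CN Pool.Agent.H65.AD

theorem lim_aux9 (K a δ : ℝ) (hδ : 0 < δ) :
    Tendsto (fun u : ℝ => K * ((a + u) ^ 9 * Real.exp (-(δ * u)))) atTop (nhds 0) := by
  have h1 := Real.tendsto_pow_mul_exp_neg_atTop_nhds_zero 9
  have h2 : Tendsto (fun u : ℝ => δ * (a + u)) atTop atTop :=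
    (tendsto_atTop_add_const_left _ a tendsto_id).const_mul_atTop hδ
  have h3 := (h1.comp h2).const_mul (K * (Real.exp (δ * a) / δ ^ 9))
  rw [mul_zero] at h3
  refine h3.congr fun u => ?_
  simp only [Function.comp]
  have h4 : Real.exp (-(δ * (a + u))) = Real.exp (-(δ * u)) * Real.exp (-(δ * a)) := by
    rw [← Real.exp_add]; congr 1; ring
  have h5 : Real.exp (δ * a) * Real.exp (-(δ * a)) = 1 := by
    rw [← Real.exp_add]; simp
  rw [h4, mul_pow]
  field_simp
  linear_combination K * (a + u) ^ 9 * h5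

theorem pf_PE2 (hQBD : T_QBD) : T_PE2 := by
  intro P θ L₀ C₀ f hθ hθ4 hC₀ hf
  obtain ⟨C, hC0, hC⟩ := hQBD P
  set L : ℝ := |L₀| with hL
  have hL0 : 0 ≤ L := abs_nonneg L₀
  -- the constants
  set a : ℝ := 1 + L with ha
  have ha1 : 1 ≤ a := by linarith
  set δ : ℝ := (1 / 4 - θ) / 4 with hδ
  have hδ0 : 0 < δ := by rw [hδ]; linarith
  set K : ℝ := C * C₀ * 4 * Real.exp (L / 4) with hK
  have hK0 : 0 ≤ K := by positivity
  have hlim := lim_aux9 K a δ hδ0
  obtain ⟨U, hU⟩ := (hlim.eventually (gt_mem_nhds one_pos)).exists_forall_of_atTop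
  refine ⟨1, max (Real.exp (max U (max 1 (Real.log 2 / θ)))) (Real.exp (L / (4 * δ))), one_pos,
    fun X lam hX hlam g V S N w n₁ n₂ hV hS hSX hg hN hw hn₁ hn₂ => ?_⟩
  have hX1 : Real.exp (max U (max 1 (Real.log 2 / θ))) ≤ X := (le_max_left _ _).trans hX
  have hX2 : Real.exp (L / (4 * δ)) ≤ X := (le_max_right _ _).trans hX
  have hX0 : 0 < X := (Real.exp_pos _).trans_le hX1
  set u : ℝ := Real.log X with hu
  have hu1 : max U (max 1 (Real.log 2 / θ)) ≤ u := by
    rw [hu, Real.le_log_iff_exp_le hX0]; exact hX1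
  have hu2 : L / (4 * δ) ≤ u := by
    rw [hu, Real.le_log_iff_exp_le hX0]; exact hX2
  have hu3 : 1 ≤ u := ((le_max_left _ _).trans (le_max_right _ _)).trans hu1
  have hu5 : Real.log 2 / θ ≤ u := ((le_max_right _ _).trans (le_max_right _ _)).trans hu1
  have hu4 : L ≤ 4 * δ * u := by
    rw [div_le_iff₀ (by positivity)] at hu2
    linarith
  set M : ℝ := X ^ θ with hMd
  have hlM : Real.log M = θ * u := by rw [hMd, Real.log_rpow hX0]
  have hM0 : 0 < M := Real.rpow_pos_of_pos hX0 θ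
  have hM2 : 2 ≤ M := by
    rw [← Real.log_le_log_iff two_pos hM0, hlM]
    rw [div_le_iff₀ hθ] at hu5
    linarith
  have hmain := hC M N w n₁ n₂ hM2 hN hw hn₁ hn₂
  have hVn : 0 ≤ C * (1 + Real.log M) ^ 6 := by
    rw [hlM]
    positivity
  have htot := BD_mul hg hmain hVn
  -- the bound of f
  have hlam' := abs_le.1 (hlam.trans (le_abs_self L₀))
  set B : ℝ := C₀ * (2 * (a + u)) ^ 2 * Real.exp (L / 4 - δ * u) with hB
  have hB0 : 0 ≤ B := by positivity
  have hθu : 0 ≤ θ * u := by positivity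
  have hfB : ∀ v : ℝ × ℝ, |v.1| ≤ S + 2 * Real.log M → |v.2| ≤ S + 2 * Real.log M →
      |f lam v| ≤ B := by
    intro v h1 h2
    rw [hlM] at h1 h2
    have hv2 := (abs_le.1 h2).2
    have h3 : v.2 ≤ lam := by
      have h9 : (1 / 4 - θ) * u = u / 4 - θ * u := by ring
      have h10 : 4 * δ * u = u / 4 - θ * u := by rw [hδ]; ring
      rw [h10] at hu4
      rw [h9] at hSX
      have := hlam'.1
      linarith
    refine (hf lam v h3).trans ?_
    have h4 : |lam| ≤ u / 2 + L := by
      rw [abs_le]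
      constructor <;> linarith [hlam'.1, hlam'.2]
    have h5 : 1 + |lam| + |v.1| + |v.2| ≤ 2 * (a + u) := by
      have h9 : (1 / 4 - θ) * u = u / 4 - θ * u := by ring
      rw [h9] at hSX
      have : θ * u ≤ 1 / 4 * u := mul_le_mul_of_nonneg_right hθ4.le (by linarith)
      rw [ha]
      linarith
    have h6 : Real.exp (-((lam - v.2) / 4)) ≤ Real.exp (L / 4 - δ * u) := by
      refine Real.exp_le_exp.2 ?_
      have h9 : (1 / 4 - θ) * u = u / 4 - θ * u := by ring
      rw [h9] at hSX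
      have h10 : δ * u = (u / 4 - θ * u) / 4 := by rw [hδ]; ring
      rw [h10]
      have := hlam'.1
      linarith
    have h7 : (1 + |lam| + |v.1| + |v.2|) ^ 2 ≤ (2 * (a + u)) ^ 2 :=
      pow_le_pow_left₀ (by positivity) h5 2
    refine mul_le_mul ?_ h6 (Real.exp_pos _).le (by positivity)
    exact mul_le_mul_of_nonneg_left h7 hC₀.le
  have hfin := htot (f lam) B hB0 hfB
  refine hfin.trans ?_
  have hL6 : (1 + Real.log M) ^ 6 ≤ (a + u) ^ 6 := by
    rw [hlM]
    refine pow_le_pow_left₀ (by positivity) ?_ 6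
    have : θ * u ≤ 1 * u := mul_le_mul_of_nonneg_right (by linarith) (by linarith)
    rw [ha]
    linarith
  have hUu := hU u ((le_max_left _ _).trans hu1)
  have h1 : C * (1 + Real.log M) ^ 6 * B * u ≤ 1 := by
    calc C * (1 + Real.log M) ^ 6 * B * u ≤ C * (a + u) ^ 6 * B * (a + u) := by
          refine mul_le_mul ?_ (by linarith) (by linarith) (by positivity)
          refine mul_le_mul_of_nonneg_right ?_ hB0
          exact mul_le_mul_of_nonneg_left hL6 hC0.le
      _ = K * ((a + u) ^ 9 * Real.exp (-(δ * u))) := by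
          rw [hB, hK, Real.exp_sub, Real.exp_neg]
          field_simp
          ring
      _ ≤ 1 := hUu.le
  rw [one_mul, le_div_iff₀ (by linarith)]
  calc V * (C * (1 + Real.log M) ^ 6) * B * u = V * (C * (1 + Real.log M) ^ 6 * B * u) := by ring
    _ ≤ V * 1 := mul_le_mul_of_nonneg_left h1 hV
    _ = V := mul_one V

end Pool.Agent.H50.ADM
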